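import Pool.Agent.Y773.NV.St1

/-!
# NV773 EXP: L(s, ψ) times the mollifier as a series over the ideals (helper448)
-/

set_option autoImplicit false

open Complex MeasureTheory NumberField

namespace Pool.Agent.Y448.NV

open Pool.Agent.Y773 (LI)
open Pool.Agent.Y773.NV

section

variable {K : Type} [Field K] [NumberField K]

theorem nm_cast (𝔞 : Ideal (𝓞 K)) : ((nm 𝔞 : ℝ) : ℂ) = ((Ideal.absNorm 𝔞 : ℕ) : ℂ) := by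
  unfold nm
  exact Complex.ofReal_natCast _

theorem two_le_nm {𝔭 : Ideal (𝓞 K)} (h : Prime 𝔭) : 2 ≤ nm 𝔭 := by
  have h0 : Ideal.absNorm 𝔭 ≠ 0 := by
    rw [Ne, Ideal.absNorm_eq_zero_iff]
    exact h.ne_zero
  have h1 : Ideal.absNorm 𝔭 ≠ 1 := by
    rw [Ne, Ideal.absNorm_eq_one_iff]
    intro h2
    apply h.not_unit
    rw [Ideal.isUnit_iff]
    exact h2
  have h2 : 2 ≤ Ideal.absNorm 𝔭 := by omega
  unfold nm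
  exact_mod_cast h2

theorem one_le_nm {𝔞 : Ideal (𝓞 K)} (h : 𝔞 ≠ ⊥) : 1 ≤ nm 𝔞 := by
  have h0 : Ideal.absNorm 𝔞 ≠ 0 := by
    rw [Ne, Ideal.absNorm_eq_zero_iff]
    exact h
  have h2 : 1 ≤ Ideal.absNorm 𝔞 := by omega
  unfold nm
  exact_mod_cast h2

theorem nA_eq (A : Finset (Ideal (𝓞 K))) : nA nm A = nm (idl A) := by
  unfold nA idl nm
  rw [map_prod, Nat.cast_prod]

theorem mem_SM {ι : Type} {P : Finset ι} {N : ι → ℝ} {M : ℝ} {A : Finset ι} :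
    A ∈ SM P N M ↔ A ⊆ P ∧ nA N A ≤ M := by
  classical
  unfold SM
  rw [Finset.mem_filter, Finset.mem_powerset]

theorem idl_ne {𝔣 : Ideal (𝓞 K)} {M : ℝ} {A : Finset (Ideal (𝓞 K))} (hA : A ⊆ Pr 𝔣 M) :
    idl A ≠ 0 := by
  unfold idl
  rw [Finset.prod_ne_zero_iff]
  intro 𝔭 h𝔭
  exact (mem_Pr.1 (hA h𝔭)).1.ne_zero

/-- the terms of the Dirichlet series -/
noncomputable def FF (ψ : Ideal (𝓞 K) →*₀ ℂ) (s : ℂ) (𝔞 : Ideal (𝓞 K)) : ℂ :=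
  ψ 𝔞 * ((Ideal.absNorm 𝔞 : ℕ) : ℂ) ^ (-s)

theorem FF_mul (ψ : Ideal (𝓞 K) →*₀ ℂ) (s : ℂ) (𝔞 𝔟 : Ideal (𝓞 K)) :
    FF ψ s (𝔞 * 𝔟) = FF ψ s 𝔞 * FF ψ s 𝔟 := by
  unfold FF
  rw [map_mul, map_mul, Nat.cast_mul, Complex.natCast_mul_natCast_cpow]
  ring

theorem FF_zero (ψ : Ideal (𝓞 K) →*₀ ℂ) (s : ℂ) : FF ψ s ⊥ = 0 := by
  unfold FF
  rw [← Ideal.zero_eq_bot, map_zero, zero_mul]

theorem FF_norm (ψ : Ideal (𝓞 K) →*₀ ℂ) (s : ℂ) (hψ : ∀ 𝔞, ‖ψ 𝔞‖ ≤ 1) {𝔞 : Ideal (𝓞 K)} (h : 𝔞 ≠ ⊥) :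
    ‖FF ψ s 𝔞‖ ≤ nm 𝔞 ^ (-s.re) := by
  have h1 := one_le_nm h
  unfold FF
  rw [← nm_cast, norm_mul, Complex.norm_cpow_eq_rpow_re_of_pos (by linarith), Complex.neg_re]
  have h2 : 0 ≤ nm 𝔞 ^ (-s.re) := Real.rpow_nonneg (by linarith) _
  exact mul_le_of_le_one_left h2 (hψ 𝔞)

theorem FF_summable (hD : St_DIV) (ψ : Ideal (𝓞 K) →*₀ ℂ) (s : ℂ) (hψ : ∀ 𝔞, ‖ψ 𝔞‖ ≤ 1)
    (hs : 1 < s.re) : Summable (FF ψ s) := by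
  classical
  obtain ⟨C, _, _, hC⟩ := hD K (s.re - 1) (by linarith)
  have h1 : Summable (fun 𝔞 : Ideal (𝓞 K) => if 𝔞 = ⊥ then 0 else nm 𝔞 ^ (-s.re)) := by
    refine summable_of_sum_le (c := C) (fun 𝔞 => ?_) (fun S => ?_)
    · simp only
      split_ifs with h
      · exact le_rfl
      · exact Real.rpow_nonneg (by have := one_le_nm h; linarith) _
    · have h2 := hC (S.filter (fun 𝔞 => 𝔞 ≠ ⊥)) (fun 𝔞 h𝔞 => (Finset.mem_filter.1 h𝔞).2)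
      rw [Finset.sum_filter] at h2
      refine le_trans (le_of_eq (Finset.sum_congr rfl fun 𝔞 _ => ?_)) h2
      by_cases h : 𝔞 = ⊥
      · rw [if_pos h, if_neg (not_not.2 h)]
      · rw [if_neg h, if_pos h]
        congr 1
        ring
  refine Summable.of_norm_bounded h1 fun 𝔞 => ?_
  split_ifs with h
  · rw [h, FF_zero, norm_zero]
  · exact FF_norm ψ s hψ h

open Classical in
/-- the sum over the multiples -/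
theorem FF_tsum (ψ : Ideal (𝓞 K) →*₀ ℂ) (s : ℂ) (I : Ideal (𝓞 K)) (hI : I ≠ 0) :
    FF ψ s I * ∑' 𝔞, FF ψ s 𝔞 = ∑' 𝔲, (if I ∣ 𝔲 then FF ψ s 𝔲 else 0) := by
  rw [← tsum_mul_left]
  have h1 : ∀ 𝔞, FF ψ s I * FF ψ s 𝔞 = (fun 𝔲 => if I ∣ 𝔲 then FF ψ s 𝔲 else 0) (I * 𝔞) := by
    intro 𝔞
    simp only
    rw [if_pos (dvd_mul_right I 𝔞), FF_mul]
  rw [tsum_congr h1]
  refine (mul_right_injective₀ hI).tsum_eq (f := fun 𝔲 => if I ∣ 𝔲 then FF ψ s 𝔲 else 0) ?_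
  intro 𝔲 h𝔲
  rw [Function.mem_support] at h𝔲
  by_contra h
  apply h𝔲
  rw [if_neg]
  rintro ⟨𝔞, rfl⟩
  exact h ⟨𝔞, rfl⟩

theorem aC_eq (𝔣 : Ideal (𝓞 K)) (M t : ℝ) (s : ℂ) (ψ : Ideal (𝓞 K) →*₀ ℂ) (𝔲 : Ideal (𝓞 K))
    [∀ A : Finset (Ideal (𝓞 K)), Decidable (idl A ∣ 𝔲)] :
    ψ 𝔲 * aC 𝔣 M t s 𝔲 = ∑ A ∈ SM (Pr 𝔣 M) nm M, ((bS (Pr 𝔣 M) nm M A : ℂ) *
      ((nA nm A : ℝ) : ℂ) ^ (s - hp t)) * (if idl A ∣ 𝔲 then FF ψ s 𝔲 else 0) := by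
  unfold aC FF
  rw [Finset.sum_filter, Finset.mul_sum]
  refine Finset.sum_congr rfl fun A _ => ?_
  by_cases h : idl A ∣ 𝔲
  · rw [if_pos h, if_pos h, nm_cast 𝔲]
    ring
  · rw [if_neg h, if_neg h, mul_zero, mul_zero]

theorem aC_top (hS : St_SEL) (𝔣 : Ideal (𝓞 K)) (M t : ℝ) (hM : 1 ≤ M) (s : ℂ) :
    aC 𝔣 M t s ⊤ = 1 := by
  classical
  have hb : bS (Pr 𝔣 M) nm M ∅ = 1 :=
    (hS (Ideal (𝓞 K)) (Pr 𝔣 M) nm M (fun 𝔭 h𝔭 => two_le_nm (mem_Pr.1 h𝔭).1) hM).2.1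
  have hn : nA (nm (K := K)) ∅ = 1 := by
    unfold nA
    rw [Finset.prod_empty]
  have ht : nm (⊤ : Ideal (𝓞 K)) = 1 := by
    unfold nm
    rw [Ideal.absNorm_top, Nat.cast_one]
  have hf : (SM (Pr 𝔣 M) nm M).filter (fun A => idl A ∣ (⊤ : Ideal (𝓞 K))) = {∅} := by
    ext A
    rw [Finset.mem_filter, Finset.mem_singleton, mem_SM]
    constructor
    · rintro ⟨⟨h1, _⟩, h3⟩
      by_contra h4
      obtain ⟨𝔭, h𝔭⟩ := Finset.nonempty_iff_ne_empty.2 h4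
      have h5 : 𝔭 ∣ idl A := Finset.dvd_prod_of_mem (fun 𝔭 => 𝔭) h𝔭
      have h6 : 𝔭 ∣ 1 := by
        rw [Ideal.one_eq_top]
        exact h5.trans h3
      exact (mem_Pr.1 (h1 h𝔭)).1.not_unit (isUnit_of_dvd_one h6)
    · rintro rfl
      refine ⟨⟨Finset.empty_subset _, ?_⟩, ?_⟩
      · rw [hn]
        exact hM
      · unfold idl
        rw [Finset.prod_empty]
        exact one_dvd _
  unfold aC
  have hf' : (SM (Pr 𝔣 M) nm M).filter (fun A => idl A ∣ (⊤ : Ideal (𝓞 K))) = {∅} := by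
    convert hf
  rw [hf', Finset.sum_singleton, hb, hn, ht]
  simp

end

theorem t_exp : St_SEL → St_DIV → St_EXP := by
  classical
  intro hS hD K _ _ 𝔣 M t hM
  refine ⟨fun s => aC_top hS 𝔣 M t hM s, fun ψ s hψ hs => ?_⟩
  have hF := FF_summable hD ψ s hψ hs
  have h1 : ∀ 𝔲 : Ideal (𝓞 K), ψ 𝔲 * aC 𝔣 M t s 𝔲 =
      ∑ A ∈ SM (Pr 𝔣 M) nm M, ((bS (Pr 𝔣 M) nm M A : ℂ) *
      ((nA nm A : ℝ) : ℂ) ^ (s - hp t)) * (if idl A ∣ 𝔲 then FF ψ s 𝔲 else 0) := fun 𝔲 =>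
    aC_eq 𝔣 M t s ψ 𝔲
  rw [tsum_congr h1]
  have h2 : ∀ A : Finset (Ideal (𝓞 K)), Summable (fun 𝔲 => if idl A ∣ 𝔲 then FF ψ s 𝔲 else 0) := by
    intro A
    have h3 := hF.indicator {𝔲 | idl A ∣ 𝔲}
    refine h3.congr fun 𝔲 => ?_
    rw [Set.indicator_apply]
    rfl
  rw [Summable.tsum_finsetSum fun A _ => (h2 A).mul_left _]
  unfold mol
  have hLI : LI ψ s = ∑' 𝔞, FF ψ s 𝔞 := rfl
  rw [hLI, Finset.mul_sum]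
  refine Finset.sum_congr rfl fun A hA => ?_
  rw [tsum_mul_left, ← FF_tsum ψ s (idl A) (idl_ne (mem_SM.1 hA).1)]
  have h4 : ((nA nm A : ℝ) : ℂ) ≠ 0 := by
    rw [nA_eq]
    have h5 := one_le_nm (𝔞 := idl A) (idl_ne (mem_SM.1 hA).1)
    exact_mod_cast (by linarith : (0 : ℝ) < nm (idl A)).ne'
  have h6 : ((nA nm A : ℝ) : ℂ) ^ (-(hp t)) = ((nA nm A : ℝ) : ℂ) ^ (s - hp t) *
      ((nA nm A : ℝ) : ℂ) ^ (-s) := by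
    rw [← Complex.cpow_add _ _ h4]
    congr 1
    ring
  have h7 : FF ψ s (idl A) = ψ (idl A) * ((nA nm A : ℝ) : ℂ) ^ (-s) := by
    unfold FF
    rw [nA_eq, nm_cast]
  rw [h6, h7]
  ring

end Pool.Agent.Y448.NV
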